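import Pool.Agent.helper29.RS.SpecK

set_option autoImplicit false

open scoped MatrixGroups ContDiff Topology UpperHalfPlane ComplexConjugate
open UpperHalfPlane MeasureTheory Filter Set

namespace Pool.Agent.RS

/-- the rotation by `π` about the midpoint -/
theorem NR1_swap (z w : ℍ) : ∃ g : SL(2, ℝ), g • z = w ∧ g • w = z := by
  obtain ⟨x, hx⟩ : ∃ x : ℝ, x = z.re := ⟨_, rfl⟩
  obtain ⟨y, hy⟩ : ∃ y : ℝ, y = z.im := ⟨_, rfl⟩
  obtain ⟨u, hu⟩ : ∃ u : ℝ, u = w.re := ⟨_, rfl⟩
  obtain ⟨v, hv⟩ : ∃ v : ℝ, v = w.im := ⟨_, rfl⟩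
  have hy0 : 0 < y := hy ▸ z.im_pos
  have hv0 : 0 < v := hv ▸ w.im_pos
  have hyv : 0 < y + v := by linarith
  have hz : (z : ℂ) = ⟨x, y⟩ := by
    apply Complex.ext
    · rw [hx]; rfl
    · rw [hy]; rfl
  have hw : (w : ℂ) = ⟨u, v⟩ := by
    apply Complex.ext
    · rw [hu]; rfl
    · rw [hv]; rfl
  obtain ⟨α, hα⟩ : ∃ α : ℝ, α = (x * v + y * u) / (y + v) := ⟨_, rfl⟩
  obtain ⟨β, hβ⟩ : ∃ β : ℝ, β = x * u - y * v - α * (x + u) := ⟨_, rfl⟩
  have hα' : α * (y + v) = x * v + y * u := by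
    rw [hα]
    field_simp
  have hD : -α ^ 2 - β = y * v * (1 + ((u - x) / (y + v)) ^ 2) := by
    rw [hβ, hα]
    field_simp
    ring
  obtain ⟨D, hDdef⟩ : ∃ D : ℝ, D = -α ^ 2 - β := ⟨_, rfl⟩
  have hD0 : 0 < D := by
    rw [hDdef, hD]
    positivity
  obtain ⟨c, hc⟩ : ∃ c : ℝ, c = 1 / √D := ⟨_, rfl⟩
  have hc0 : 0 < c := by
    rw [hc]
    have := Real.sqrt_pos.2 hD0
    positivity
  have hc2 : c ^ 2 * D = 1 := by
    rw [hc, div_pow, one_pow, Real.sq_sqrt hD0.le]
    field_simp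
  have hdet : Matrix.det !![c * α, c * β; c, -(c * α)] = 1 := by
    rw [Matrix.det_fin_two_of]
    have : c * α * -(c * α) - c * β * c = c ^ 2 * D := by
      rw [hDdef]
      ring
    rw [this, hc2]
  obtain ⟨g, hg⟩ : ∃ g : SL(2, ℝ), g = ⟨!![c * α, c * β; c, -(c * α)], hdet⟩ := ⟨_, rfl⟩
  have hg00 : g 0 0 = c * α := by rw [hg]; rfl
  have hg01 : g 0 1 = c * β := by rw [hg]; rfl
  have hg10 : g 1 0 = c := by rw [hg]; rfl
  have hg11 : g 1 1 = -(c * α) := by rw [hg]; rfl
  -- the equation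
  have heq : ((α : ℝ) : ℂ) * ((z : ℂ) + w) + (β : ℂ) = (z : ℂ) * w := by
    rw [hz, hw]
    apply Complex.ext
    · simp only [Complex.add_re, Complex.mul_re, Complex.ofReal_re, Complex.ofReal_im,
        Complex.add_im]
      rw [hβ]
      ring
    · simp only [Complex.add_im, Complex.mul_im, Complex.ofReal_re, Complex.ofReal_im,
        Complex.add_re]
      linarith [hα']
  have key : ∀ a b : ℍ, ((α : ℝ) : ℂ) * ((a : ℂ) + b) + (β : ℂ) = (a : ℂ) * b → g • a = b := by
    intro a b hab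
    apply UpperHalfPlane.ext
    have h1 : ((g • a : ℍ) : ℂ) = (((g 0 0 : ℝ) : ℂ) * a + ((g 0 1 : ℝ) : ℂ)) /
        (((g 1 0 : ℝ) : ℂ) * a + ((g 1 1 : ℝ) : ℂ)) := by
      rw [UpperHalfPlane.coe_specialLinearGroup_apply]
      rfl
    rw [h1, hg00, hg01, hg10, hg11]
    have hne : ((c : ℝ) : ℂ) * a + ((-(c * α) : ℝ) : ℂ) ≠ 0 := by
      intro h
      have h2 := congrArg Complex.im h
      rw [Complex.add_im, Complex.ofReal_im, add_zero, Complex.im_ofReal_mul, Complex.zero_im] at h2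
      have h3 : (a : ℂ).im ≠ 0 := a.im_ne_zero
      rcases mul_eq_zero.1 h2 with h4 | h4
      · exact hc0.ne' h4
      · exact h3 h4
    rw [div_eq_iff hne]
    push_cast
    linear_combination (c : ℂ) * hab
  refine ⟨g, key z w heq, key w z ?_⟩
  rw [add_comm (w : ℂ), mul_comm (w : ℂ)]
  exact heq

theorem NR1_zero (f : ℍ → ℂ) (hf2 : HasCompactSupport f) : ∃ R : ℝ, ∀ z, f z ≠ 0 → dist z I ≤ R := by
  obtain ⟨R, hR⟩ := hf2.isCompact.isBounded.subset_closedBall I
  exact ⟨R, fun z hz => hR (subset_tsupport f hz)⟩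

theorem NR1 (hGLC : GLC_stmt) (hGMG : GMG_stmt) (hGLI : GLI_stmt) : NR1_stmt := by
  intro f hf hfs
  obtain ⟨R, hR⟩ := NR1_zero f hfs
  have hcont : ∀ z : ℍ, Continuous fun g : SL(2, ℝ) => f (g⁻¹ • z) := fun z =>
    hf.comp (continuous_inv.smul continuous_const)
  have hinv : ∀ (h : SL(2, ℝ)) (z w : ℍ), kf f (h • z) (h • w) = kf f z w := by
    intro h z w
    unfold kf
    have h1 : ∀ g : SL(2, ℝ), conj (f (g⁻¹ • h • z)) * f (g⁻¹ • h • w) =
        (fun g : SL(2, ℝ) => conj (f (g⁻¹ • z)) * f (g⁻¹ • w)) (h⁻¹ * g) := by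
      intro g
      show _ = conj (f ((h⁻¹ * g)⁻¹ • z)) * f ((h⁻¹ * g)⁻¹ • w)
      rw [mul_inv_rev, inv_inv, mul_smul, mul_smul]
    rw [integral_congr_ae (Filter.Eventually.of_forall h1)]
    have hc : Continuous fun g : SL(2, ℝ) => conj (f (g⁻¹ • z)) * f (g⁻¹ • w) :=
      (Complex.continuous_conj.comp (hcont z)).mul (hcont w)
    have hm : Measurable fun g : SL(2, ℝ) => h⁻¹ * g := (continuous_const.mul continuous_id).measurable
    have h2 := integral_map (μ := mG) hm.aemeasurable (f := fun g : SL(2, ℝ) =>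
      conj (f (g⁻¹ • z)) * f (g⁻¹ • w)) (by
        rw [hGLI h⁻¹]
        have := hGLC.2.1
        exact hc.aestronglyMeasurable)
    rw [hGLI h⁻¹] at h2
    exact h2.symm
  have hsym : ∀ z w : ℍ, kf f z w = kf f w z := by
    intro z w
    obtain ⟨g, h1, h2⟩ := NR1_swap z w
    have h3 := hinv g z w
    rw [h1, h2] at h3
    exact h3.symm
  refine ⟨?_, hinv, ⟨2 * R, ?_⟩, NR1_swap, hsym, ?_⟩
  · -- continuity
    have : IsFiniteMeasureOnCompacts mG := ⟨fun K hK => hGMG.2.1 K hK⟩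
    rw [continuous_iff_continuousAt]
    intro p
    obtain ⟨K, hK⟩ : ∃ K : Set SL(2, ℝ), K = {g : SL(2, ℝ) | g • I ∈ Metric.closedBall I
      (R + (dist p.1 I + 1))} := ⟨_, rfl⟩
    have hKc : IsCompact K := by
      rw [hK]
      exact hGLC.2.2.1 _ (isCompact_closedBall _ _)
    have hon : ContinuousOn (fun q : ℍ × ℍ => ∫ g : SL(2, ℝ), conj (f (g⁻¹ • q.1)) * f (g⁻¹ • q.2) ∂mG)
        ((Metric.ball p.1 1) ×ˢ (Set.univ : Set ℍ)) := by
      refine continuousOn_integral_of_compact_support hKc ?_ ?_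
      · apply Continuous.continuousOn
        refine Continuous.mul ?_ ?_
        · exact Complex.continuous_conj.comp (hf.comp
            ((continuous_inv.comp continuous_snd).smul (continuous_fst.comp continuous_fst)))
        · exact hf.comp ((continuous_inv.comp continuous_snd).smul (continuous_snd.comp continuous_fst))
      · intro q g hq hg
        by_contra hne
        apply hg
        have h1 : f (g⁻¹ • q.1) ≠ 0 := by
          intro h0
          apply hne
          rw [h0]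
          simp
        have h2 := hR _ h1
        have h3 : dist (g • I) q.1 = dist (g⁻¹ • q.1) I := by
          have := dist_smul g⁻¹ (g • I) q.1
          rw [inv_smul_smul] at this
          rw [← this, dist_comm]
        rw [hK]
        show dist (g • I) I ≤ _
        have h4 := dist_triangle (g • I) q.1 I
        have h5 := dist_triangle q.1 p.1 I
        have h6 : dist q.1 p.1 < 1 := hq.1
        linarith
    have hmem : (Metric.ball p.1 1) ×ˢ (Set.univ : Set ℍ) ∈ 𝓝 p :=
      (Metric.isOpen_ball.prod isOpen_univ).mem_nhds ⟨Metric.mem_ball_self one_pos, Set.mem_univ _⟩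
    exact hon.continuousAt hmem
  · intro z w hne
    by_contra hcon
    push Not at hcon
    apply hne
    unfold kf
    have h0 : ∀ g : SL(2, ℝ), conj (f (g⁻¹ • z)) * f (g⁻¹ • w) = 0 := by
      intro g
      by_contra h1
      have h2 : f (g⁻¹ • z) ≠ 0 := by
        intro h3
        apply h1
        rw [h3]
        simp
      have h4 : f (g⁻¹ • w) ≠ 0 := by
        intro h3
        apply h1
        rw [h3, mul_zero]
      have h5 := hR _ h2
      have h6 := hR _ h4
      have h7 : dist z w = dist (g⁻¹ • z) (g⁻¹ • w) := (dist_smul g⁻¹ z w).symm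
      have h8 := dist_triangle_right (g⁻¹ • z) (g⁻¹ • w) I
      linarith
    rw [integral_congr_ae (Filter.Eventually.of_forall h0), integral_zero]
  · intro z w
    refine Eq.trans ?_ (hsym z w).symm
    unfold kf
    rw [← integral_conj]
    refine integral_congr_ae (Filter.Eventually.of_forall fun g => ?_)
    simp only [map_mul, Complex.conj_conj]
    ring

end Pool.Agent.RS
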